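import Pool.Agent.HitD5.OpsAB

set_option autoImplicit false

/-!
# The halving operators with the new variable at any position
-/

namespace Pool.Agent.HitAB

open Pool.Agent.Helper60.Hit MvPolynomial Pool.Agent.CTL45 Pool.Agent.HitD5

variable {n : ℕ}

/-- `x_p ↦ 0`, the other variables renumbered -/
noncomputable def delp (p : Fin (n + 1)) :
    MvPolynomial (Fin (n + 1)) (ZMod 2) →ₐ[ZMod 2] MvPolynomial (Fin n) (ZMod 2) :=
  aeval (p.insertNth (α := fun _ => MvPolynomial (Fin n) (ZMod 2)) 0 (fun j => X j))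

theorem delp_mono (p : Fin (n + 1)) (y : Fin (n + 1) → ℕ) :
    delp p (mono y) = if y p = 0 then mono (fun j => y (p.succAbove j)) else 0 := by
  unfold delp
  rw [aeval_mono, Fin.prod_univ_succAbove _ p, Fin.insertNth_apply_same]
  simp only [Fin.insertNth_apply_succAbove]
  rw [mono_eq_prod (fun j => y (p.succAbove j))]
  split_ifs with h
  · rw [h, pow_zero, one_mul]
  · rw [zero_pow h, zero_mul]

theorem delp_hits (p : Fin (n + 1)) {g : MvPolynomial (Fin (n + 1)) (ZMod 2)}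
    (hg : g ∈ hits (n + 1)) : delp p g ∈ hits n := by
  refine aeval_hits _ (fun i => ?_) hg
  rcases eq_or_ne i p with rfl | hi
  · rw [Fin.insertNth_apply_same]; exact lin_zero
  · obtain ⟨j, rfl⟩ := Fin.exists_succAbove_eq hi
    rw [Fin.insertNth_apply_succAbove]; exact lin_X _

theorem wt_del (p : Fin (n + 1)) {z : Fin (n + 1) → ℕ} (h : z p = 0) :
    wt (fun j => z (p.succAbove j)) = wt z := by
  funext s
  unfold wt
  rw [Fin.sum_univ_succAbove _ p, h]
  simp

theorem nlt_del (p : Fin (n + 1)) {y u : Fin (n + 1) → ℕ} (hy : y p = 0) (hu : u p = 0)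
    (h : NLT y u) : NLT (fun j => y (p.succAbove j)) (fun j => u (p.succAbove j)) := by
  unfold NLT at h ⊢
  rw [wt_del p hy, wt_del p hu]
  refine h.imp id (fun h => ⟨h.1, ?_⟩)
  obtain ⟨i, h1, h2⟩ := h.2
  have hi : i ≠ p := by
    rintro rfl
    rw [hy, hu] at h2
    exact absurd h2 (lt_irrefl _)
  obtain ⟨j, rfl⟩ := Fin.exists_succAbove_eq hi
  exact ⟨j, fun l hl => h1 _ (Fin.strictMono_succAbove p hl), h2⟩

/-- leave out `x_p`, then `k`-fold halving -/
noncomputable def hdp (p : Fin (n + 1)) (k : ℕ) :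
    MvPolynomial (Fin (n + 1)) (ZMod 2) →ₗ[ZMod 2] MvPolynomial (Fin n) (ZMod 2) :=
  psik k ∘ₗ (delp p).toLinearMap

theorem hdp_hits (p : Fin (n + 1)) (k : ℕ) {g : MvPolynomial (Fin (n + 1)) (ZMod 2)}
    (hg : g ∈ hits (n + 1)) : hdp p k g ∈ hits n := psik_hits k (delp_hits p hg)

theorem hdp_mono (p : Fin (n + 1)) (k : ℕ) (z : Fin (n + 1) → ℕ) :
    hdp p k (mono z) = if z p = 0 ∧ ∀ i : Fin n, z (p.succAbove i) % 2 ^ k = 2 ^ k - 1 then
      mono (fun i => z (p.succAbove i) / 2 ^ k) else 0 := by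
  unfold hdp
  rw [LinearMap.comp_apply, AlgHom.toLinearMap_apply, delp_mono]
  by_cases h : z p = 0
  · rw [if_pos h, psik_mono]
    by_cases h1 : ∀ i : Fin n, z (p.succAbove i) % 2 ^ k = 2 ^ k - 1
    · rw [if_pos h1, if_pos ⟨h, h1⟩]
    · rw [if_neg h1, if_neg (fun h2 => h1 h2.2)]
  · rw [if_neg h, map_zero, if_neg (fun h2 => h h2.1)]

variable {w : ℕ → Fin (n + 1)} {r u : ℕ} {e e0 : Fin (n + 1) → ℕ}

/-- an operator on `P_n` which preserves hit polynomials, sends every monomial to itself or to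
zero, keeps the half of `t` and kills the halves of the bad monomials or makes them small -/
theorem adm_of_sieve (S : Wk w r u e e0) (k : ℕ)
    (ht : ∀ i : Fin n, e0 ((w 0).succAbove i) % 2 ^ k = 2 ^ k - 1)
    (K : MvPolynomial (Fin n) (ZMod 2) →ₗ[ZMod 2] MvPolynomial (Fin n) (ZMod 2))
    (hK : ∀ g ∈ hits n, K g ∈ hits n) (P : (Fin n → ℕ) → Prop) [DecidablePred P]
    (hKm : ∀ z, K (mono z) = if P z then mono z else 0)
    (hPt : P (fun i => e0 ((w 0).succAbove i) / 2 ^ k))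
    (hbad : ∀ z : Fin (n + 1) → ℕ, z (w 0) = 0 →
      (∀ i : Fin n, z ((w 0).succAbove i) % 2 ^ k = 2 ^ k - 1) →
      Bad w r u e0 z → P (fun i => z ((w 0).succAbove i) / 2 ^ k) →
        NLT (fun i : Fin n => z ((w 0).succAbove i) / 2 ^ k)
          (fun i : Fin n => e0 ((w 0).succAbove i) / 2 ^ k))
    (hA0 : Adm (fun i : Fin n => e0 ((w 0).succAbove i))) : Adm e := by
  have h00 : e0 (w 0) = 0 := S.e0_eq_zero
  have hA : Adm (fun i : Fin n => e0 ((w 0).succAbove i) / 2 ^ k) := adm_halfk k hA0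
  -- small monomials
  have hsmall : ∀ z : Fin (n + 1) → ℕ, (NLT z e0 ∨ Bad w r u e0 z) →
      (K ∘ₗ hdp (w 0) k) (mono z) ∈
        msp (fun y => NLT y (fun i : Fin n => e0 ((w 0).succAbove i) / 2 ^ k)) := by
    intro z hz
    rw [LinearMap.comp_apply, hdp_mono]
    split_ifs with h1
    · rw [hKm]
      split_ifs with h2
      · refine mono_mem_msp ?_
        rcases hz with hz | hz
        · exact nlt_halfk k (y := fun i : Fin n => z ((w 0).succAbove i))
            (u := fun i : Fin n => e0 ((w 0).succAbove i)) h1.2 ht (nlt_del (w 0) h1.1 h00 hz)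
        · exact hbad z h1.1 h1.2 hz h2
      · exact Submodule.zero_mem _
    · rw [map_zero]; exact Submodule.zero_mem _
  refine adm_transport ((K ∘ₗ hdp (w 0) k) ∘ₗ TS w r u) (fun g hg => ?_) ?_ (fun y hy => ?_) hA
  · exact Submodule.mem_sup_left (hK _ (hdp_hits (w 0) k (TS_hits w r u hg)))
  · have h1 := map_msp (K ∘ₗ hdp (w 0) k) _ (fun y hy => hsmall y (Or.inl hy)) S.full
    rw [map_add] at h1
    have h2 : (K ∘ₗ hdp (w 0) k) (mono e0) =
        mono (fun i : Fin n => e0 ((w 0).succAbove i) / 2 ^ k) := by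
      rw [LinearMap.comp_apply, hdp_mono, if_pos ⟨h00, ht⟩, hKm, if_pos hPt]
    rw [h2] at h1
    exact Submodule.mem_sup_right h1
  · exact Submodule.mem_sup_right (map_msp (K ∘ₗ hdp (w 0) k) _ (fun z hz => hsmall z hz) (S.TA hy))

/-- operator AB: all exponents (except the one at the new position) are congruent to `-1` modulo
`2 ^ (r - 1)` -/
theorem Wk.AB (S : Wk w r u e e0)
    (ht : ∀ i : Fin n, e0 ((w 0).succAbove i) % 2 ^ (r - 1) = 2 ^ (r - 1) - 1)
    (hA0 : Adm (fun i : Fin n => e0 ((w 0).succAbove i))) : Adm e := by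
  classical
  have hr : 0 < r := lt_of_le_of_lt (Nat.zero_le _) S.hu
  obtain ⟨k, rfl⟩ : ∃ k, r = k + 1 := ⟨r - 1, by omega⟩
  rw [Nat.add_sub_cancel] at ht
  obtain ⟨K, hK, hKm⟩ := exists_keep
    (Finset.univ.filter (fun b : Fin n => ∃ j < u, w (j + 1) = (w 0).succAbove b))
  refine adm_of_sieve S k ht K hK _ hKm ?_ ?_ hA0
  · intro b hb
    rw [Finset.mem_filter] at hb
    obtain ⟨-, j, hj, hb⟩ := hb
    show e0 ((w 0).succAbove b) / 2 ^ k ≠ 0
    rw [← hb, S.e0_w hj, pow_succ]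
    have h1 : 2 ^ k * 2 - 1 = (2 ^ k - 1) + 2 ^ k * 1 := by
      have := Nat.one_le_two_pow (n := k); omega
    rw [h1, Nat.add_mul_div_left _ _ (by positivity)]
    exact Nat.succ_ne_zero _
  · rintro z hz0 hzm ⟨-, j, hj, -, hlt⟩ hP
    exfalso
    have hne : w (j + 1) ≠ w 0 := S.inc.ne (by omega) (by have := S.hu; omega) (by omega)
    obtain ⟨b, hb⟩ := Fin.exists_succAbove_eq hne
    refine hP b (Finset.mem_filter.mpr ⟨Finset.mem_univ _, j, hj, hb.symm⟩) ?_
    have h1 := hzm b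
    show z ((w 0).succAbove b) / 2 ^ k = 0
    rw [hb] at h1 ⊢
    have h2 := Nat.div_add_mod (z (w (j + 1))) (2 ^ k)
    rw [h1] at h2
    rw [pow_succ] at hlt
    by_contra h3
    have h4 : 2 ^ k * 1 ≤ 2 ^ k * (z (w (j + 1)) / 2 ^ k) :=
      Nat.mul_le_mul_left _ (Nat.one_le_iff_ne_zero.mpr h3)
    have := Nat.one_le_two_pow (n := k)
    omega

/-- operator G0: all exponents are congruent to `-1` modulo `2 ^ k`, the ones in the gaps are
equal to `2 ^ k - 1` -/
theorem Wk.G0 (S : Wk w r u e e0) {k : ℕ} (hk : k ≤ r)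
    (ht : ∀ i : Fin n, e0 ((w 0).succAbove i) % 2 ^ k = 2 ^ k - 1)
    (hgap : ∀ j < u, ∀ i, w j < i → i < w (j + 1) → e0 i = 2 ^ k - 1)
    (hA0 : Adm (fun i : Fin n => e0 ((w 0).succAbove i))) : Adm e := by
  classical
  set G : Finset (Fin n) := Finset.univ.filter
    (fun b : Fin n => ∃ j < u, w j < (w 0).succAbove b ∧ (w 0).succAbove b < w (j + 1)) with hG
  have hpow := Nat.one_le_two_pow (n := k)
  refine adm_of_sieve S k ht (kill G).toLinearMap (fun g hg => kill_hits G hg) _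
    (fun z => kill_mono G z) ?_ ?_ hA0
  · intro b hb
    rw [hG, Finset.mem_filter] at hb
    obtain ⟨-, j, hj, h1, h2⟩ := hb
    show e0 ((w 0).succAbove b) / 2 ^ k = 0
    rw [hgap j hj _ h1 h2]
    exact Nat.div_eq_of_lt (by omega)
  · rintro z hz0 hzm ⟨hwt, j, hj, hpre, hlt⟩ hP
    have h00 : e0 (w 0) = 0 := S.e0_eq_zero
    right
    refine ⟨?_, ?_⟩
    · funext s
      rw [wt_halfk k (fun i : Fin n => z ((w 0).succAbove i)),
        wt_halfk k (fun i : Fin n => e0 ((w 0).succAbove i)),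
        wt_del (w 0) hz0, wt_del (w 0) h00, hwt]
    · have hne : w (j + 1) ≠ w 0 := S.inc.ne (by omega) (by have := S.hu; omega) (by omega)
      obtain ⟨b, hb⟩ := Fin.exists_succAbove_eq hne
      refine ⟨b, fun i hi => ?_, ?_⟩
      · show z ((w 0).succAbove i) / 2 ^ k = e0 ((w 0).succAbove i) / 2 ^ k
        have hib : (w 0).succAbove i < w (j + 1) := by
          rw [← hb]; exact Fin.strictMono_succAbove _ hi
        rcases le_or_gt ((w 0).succAbove i) (w j) with h1 | h1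
        · rw [hpre _ h1]
        · have h2 : z ((w 0).succAbove i) / 2 ^ k = 0 :=
            hP i (by rw [hG, Finset.mem_filter]; exact ⟨Finset.mem_univ _, j, hj, h1, hib⟩)
          rw [h2, hgap j hj _ h1 hib]
          exact (Nat.div_eq_of_lt (by omega)).symm
      · show z ((w 0).succAbove b) / 2 ^ k < e0 ((w 0).succAbove b) / 2 ^ k
        have h1 := hzm b
        rw [hb] at h1 ⊢
        rw [S.e0_w hj]
        have h2 := Nat.div_add_mod (z (w (j + 1))) (2 ^ k)
        rw [h1] at h2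
        obtain ⟨m, rfl⟩ : ∃ m, r = k + m := ⟨r - k, by omega⟩
        have hm := Nat.one_le_two_pow (n := m)
        have h3 : 2 ^ (k + m) - 1 = (2 ^ k - 1) + 2 ^ k * (2 ^ m - 1) := by
          rw [pow_add, Nat.mul_sub, mul_one]
          have : 2 ^ k * 1 ≤ 2 ^ k * 2 ^ m := Nat.mul_le_mul_left _ hm
          omega
        rw [h3] at hlt ⊢
        rw [Nat.add_mul_div_left _ _ (by positivity),
          Nat.div_eq_of_lt (show 2 ^ k - 1 < 2 ^ k by omega), zero_add]
        have h4 : 2 ^ k * (z (w (j + 1)) / 2 ^ k) < 2 ^ k * (2 ^ m - 1) := by omega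
        exact Nat.lt_of_mul_lt_mul_left h4

end Pool.Agent.HitAB
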