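import Pool.Agent.HitAB.Main

set_option autoImplicit false

/-!
# A criterion for the variables in the gaps
-/

namespace Pool.Agent.HitAB

open Pool.Agent.Helper60.Hit MvPolynomial Pool.Agent.CTL45 Pool.Agent.HitD5

variable {n : ℕ}

theorem le_of_bits {a b : ℕ} (h : ∀ s, a / 2 ^ s % 2 = 1 → b / 2 ^ s % 2 = 1) : a ≤ b := by
  have h1 : a &&& b = a := by
    apply Nat.eq_of_testBit_eq
    intro s
    rw [Nat.testBit_and]
    cases ha : a.testBit s with
    | false => rfl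
    | true =>
      rw [Nat.testBit_eq_decide_div_mod_eq, decide_eq_true_eq] at ha
      rw [Nat.testBit_eq_decide_div_mod_eq, h s ha]
      rfl
  rw [← h1]
  exact Nat.and_le_right

theorem le_of_low_bits {r x : ℕ} (h : ∀ s < r, x / 2 ^ s % 2 = 1) : 2 ^ r - 1 ≤ x := by
  refine le_of_bits fun s hs => ?_
  by_cases hsr : s < r
  · exact h s hsr
  · rw [Nat.div_eq_of_lt, Nat.zero_mod] at hs
    · exact absurd hs (by norm_num)
    · have h1 : 2 ^ r ≤ 2 ^ s := Nat.pow_le_pow_right (by norm_num) (by omega)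
      have h2 := Nat.one_le_two_pow (n := r)
      omega

/-- equal weights and equal beginnings: equal digit sums behind -/
theorem tail_wt {d : ℕ} {z e0 : Fin d → ℕ} (h : wt z = wt e0) {f : Fin d}
    (hpre : ∀ i < f, z i = e0 i) (s : ℕ) :
    ∑ i ∈ Finset.univ.filter (fun i => f ≤ i), z i / 2 ^ s % 2 =
      ∑ i ∈ Finset.univ.filter (fun i => f ≤ i), e0 i / 2 ^ s % 2 := by
  have h1 : ∑ i, z i / 2 ^ s % 2 = ∑ i, e0 i / 2 ^ s % 2 := congrFun h s
  rw [← Finset.sum_filter_add_sum_filter_not Finset.univ (fun i => f ≤ i) (fun i => z i / 2 ^ s % 2),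
    ← Finset.sum_filter_add_sum_filter_not Finset.univ (fun i => f ≤ i)
      (fun i => e0 i / 2 ^ s % 2)] at h1
  have h2 : ∑ i ∈ Finset.univ.filter (fun i => ¬ f ≤ i), z i / 2 ^ s % 2 =
      ∑ i ∈ Finset.univ.filter (fun i => ¬ f ≤ i), e0 i / 2 ^ s % 2 := by
    refine Finset.sum_congr rfl fun i hi => ?_
    rw [Finset.mem_filter] at hi
    rw [hpre i (not_le.mp hi.2)]
  omega

/-- a dominating entry is not exceeded -/
theorem le_of_dominating {d : ℕ} {z e0 : Fin d → ℕ} (h : wt z = wt e0) {f : Fin d}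
    (hpre : ∀ i < f, z i = e0 i)
    (hdom : ∀ l s, f < l → e0 l / 2 ^ s % 2 = 1 → e0 f / 2 ^ s % 2 = 1) : z f ≤ e0 f := by
  refine le_of_bits fun s hs => ?_
  have h1 := tail_wt h hpre s
  have hf : f ∈ Finset.univ.filter (fun i => f ≤ i) := by
    rw [Finset.mem_filter]; exact ⟨Finset.mem_univ _, le_rfl⟩
  have h2 : 1 ≤ ∑ i ∈ Finset.univ.filter (fun i => f ≤ i), z i / 2 ^ s % 2 := by
    rw [← hs]
    exact Finset.single_le_sum (f := fun i => z i / 2 ^ s % 2) (fun i _ => Nat.zero_le _) hf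
  rw [h1] at h2
  obtain ⟨l, hl, hl2⟩ : ∃ l ∈ Finset.univ.filter (fun i => f ≤ i), e0 l / 2 ^ s % 2 ≠ 0 := by
    by_contra hcon
    push Not at hcon
    rw [Finset.sum_eq_zero hcon] at h2
    omega
  have hl3 : e0 l / 2 ^ s % 2 = 1 := by omega
  rw [Finset.mem_filter] at hl
  rcases eq_or_lt_of_le hl.2 with h3 | h3
  · rw [h3]; exact hl3
  · exact hdom l s h3 hl3

/-- full entries behind stay full -/
theorem full_of_full {d r : ℕ} {z e0 : Fin d → ℕ} (h : wt z = wt e0) {f : Fin d}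
    (hpre : ∀ i < f, z i = e0 i) (hfull : ∀ l, f ≤ l → e0 l % 2 ^ r = 2 ^ r - 1) {l : Fin d}
    (hl : f ≤ l) : 2 ^ r - 1 ≤ z l := by
  refine le_of_low_bits fun s hs => ?_
  by_contra hcon
  have h1 := tail_wt h hpre s
  have h2 : ∑ i ∈ Finset.univ.filter (fun i => f ≤ i), z i / 2 ^ s % 2 <
      ∑ i ∈ Finset.univ.filter (fun i => f ≤ i), e0 i / 2 ^ s % 2 := by
    refine Finset.sum_lt_sum (fun i hi => ?_) ⟨l, ?_, ?_⟩
    · rw [Finset.mem_filter] at hi
      rw [full_of_mod (hfull i hi.2) s hs]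
      omega
    · rw [Finset.mem_filter]; exact ⟨Finset.mem_univ _, hl⟩
    · rw [full_of_mod (hfull l hl) s hs]
      omega
  omega

variable {w : ℕ → Fin (n + 1)} {r u : ℕ} {e e0 : Fin (n + 1) → ℕ}

/-- the gap criterion for the operator -/
theorem Wk.gap (S : Wk w r u e e0) {c : ℕ}
    (ht : ∀ i : Fin n, e0 ((w 0).succAbove i) % 2 ^ c = 2 ^ c - 1)
    (hgap : ∀ j < u, ∀ i, w j < i → i < w (j + 1) →
      (∀ l, i ≤ l → e0 l % 2 ^ r = 2 ^ r - 1) ∨
      (∀ l s, i < l → e0 l / 2 ^ s % 2 = 1 → e0 i / 2 ^ s % 2 = 1) ∨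
      e0 i = 2 ^ c - 1)
    (hA0 : Adm (fun i : Fin n => e0 ((w 0).succAbove i))) : Adm e := by
  classical
  set G : Finset (Fin n) := Finset.univ.filter
    (fun b : Fin n => e0 ((w 0).succAbove b) = 2 ^ c - 1) with hG
  have hpow := Nat.one_le_two_pow (n := c)
  refine adm_of_sieve S c ht (kill G).toLinearMap (fun g hg => kill_hits G hg) _
    (fun z => kill_mono G z) ?_ ?_ hA0
  · intro b hb
    rw [hG, Finset.mem_filter] at hb
    show e0 ((w 0).succAbove b) / 2 ^ c = 0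
    rw [hb.2]
    exact Nat.div_eq_of_lt (by omega)
  · rintro z hz0 hzm ⟨hwt, j, hj, hpre, hlt⟩ hP
    have h00 : e0 (w 0) = 0 := S.e0_eq_zero
    have hne : z (w (j + 1)) ≠ e0 (w (j + 1)) := by rw [S.e0_w hj]; exact ne_of_lt hlt
    -- the first difference
    obtain ⟨f, hf, hfmin⟩ : ∃ f : Fin (n + 1), z f ≠ e0 f ∧ ∀ i < f, z i = e0 i := by
      obtain ⟨f, hf, hmin⟩ := Finset.exists_min_image (Finset.univ.filter (fun i => z i ≠ e0 i)) id
        ⟨w (j + 1), by rw [Finset.mem_filter]; exact ⟨Finset.mem_univ _, hne⟩⟩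
      rw [Finset.mem_filter] at hf
      refine ⟨f, hf.2, fun i hi => ?_⟩
      by_contra hcon
      have := hmin i (by rw [Finset.mem_filter]; exact ⟨Finset.mem_univ _, hcon⟩)
      exact absurd (lt_of_lt_of_le hi this) (lt_irrefl _)
    have hf1 : w j < f := by
      by_contra hcon
      exact hf (hpre f (not_lt.mp hcon))
    have hf2 : f ≤ w (j + 1) := by
      by_contra hcon
      exact hne (hfmin _ (not_le.mp hcon))
    have hsmall : z f < e0 f → NLT (fun i : Fin n => z ((w 0).succAbove i) / 2 ^ c)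
        (fun i : Fin n => e0 ((w 0).succAbove i) / 2 ^ c) := by
      intro hlt2
      refine nlt_halfk c (y := fun i : Fin n => z ((w 0).succAbove i))
        (u := fun i : Fin n => e0 ((w 0).succAbove i)) hzm ht (nlt_del (w 0) hz0 h00 ?_)
      exact Or.inr ⟨hwt, f, hfmin, hlt2⟩
    rcases eq_or_lt_of_le hf2 with h1 | h1
    · refine hsmall ?_
      rw [h1, S.e0_w hj]; exact hlt
    · rcases hgap j hj f hf1 h1 with h2 | h2 | h2
      · exfalso
        have h3 := full_of_full hwt hfmin h2 hf2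
        omega
      · refine hsmall (lt_of_le_of_ne (le_of_dominating hwt hfmin h2) hf)
      · exfalso
        have hfp : f ≠ w 0 := by
          refine ne_of_gt (lt_of_le_of_lt (S.inc.le (Nat.zero_le j) ?_) hf1)
          have := S.hu; omega
        obtain ⟨b, rfl⟩ := Fin.exists_succAbove_eq hfp
        have h3 : z ((w 0).succAbove b) / 2 ^ c = 0 :=
          hP b (by rw [hG, Finset.mem_filter]; exact ⟨Finset.mem_univ _, h2⟩)
        have h4 := hzm b
        have h5 := Nat.div_add_mod (z ((w 0).succAbove b)) (2 ^ c)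
        rw [h3, h4, mul_zero, zero_add] at h5
        exact hf (by rw [← h5, h2])

/-- the criterion for the positions of the problem, with the gaps of the given `κ` -/
theorem gap_main0 (p : Fin (n + 1)) (e0 : Fin (n + 1) → ℕ) (h0 : e0 p = 0)
    (r : ℕ) (κ : Fin r → Fin (n + 1)) (u : Fin r) (e : Fin (n + 1) → ℕ)
    (hκ : StrictMono κ) (hpκ : ∀ m, p < κ m) {c : ℕ}
    (hc : ∀ i, i ≠ p → e0 i % 2 ^ c = 2 ^ c - 1)
    (hgap : ∀ i m, p < i → m < u → i < κ m → (∀ m', i ≠ κ m') →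
      (∀ l, i ≤ l → e0 l % 2 ^ r = 2 ^ r - 1) ∨
      (∀ l s, i < l → e0 l / 2 ^ s % 2 = 1 → e0 i / 2 ^ s % 2 = 1) ∨
      e0 i = 2 ^ c - 1 ∨ r ≤ c + 1)
    (hlow : ∀ m : Fin r, m < u → e0 (κ m) = 2 ^ r - 1)
    (hbu : ∀ m : Fin r, m ≤ u → e0 (κ u) / 2 ^ (r - 1 - (m : ℕ)) % 2 = 1)
    (hbm : ∀ m : Fin r, u < m → e0 (κ m) / 2 ^ (r - 1 - (m : ℕ)) % 2 = 1)
    (hep : e p = 2 ^ r - 1)
    (heu : e (κ u) + ∑ m ∈ Finset.range ((u : ℕ) + 1), 2 ^ (r - 1 - m) = e0 (κ u))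
    (hem : ∀ m : Fin r, u < m → e (κ m) + 2 ^ (r - 1 - (m : ℕ)) = e0 (κ m))
    (heq : ∀ i, i ≠ p → (∀ m, u ≤ m → i ≠ κ m) → e i = e0 i) :
    (Adm e0 → Adm e) ∧ wt e = wt e0 ∧ ∑ i, e i = ∑ i, e0 i := by
  have S : Wk (seqOf p κ) r (u : ℕ) e e0 :=
    wk_main p e0 h0 r κ u e hκ hpκ hlow hbu hbm hep heu hem heq
  refine ⟨fun h => ?_, S.hwt.symm, S.sum_eq.symm⟩
  have hA0 : Adm (fun i : Fin n => e0 ((seqOf p κ 0).succAbove i)) :=
    adm_delete p h0 (fun j => rfl) h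
  by_cases hr : r ≤ c + 1
  · refine Wk.AB S (fun i => ?_) hA0
    exact mod_of_le (by omega) (hc _ (Fin.succAbove_ne _ _))
  · refine Wk.gap S (c := c) (fun i => hc _ (Fin.succAbove_ne _ _)) ?_ hA0
    intro j hj i hi1 hi2
    have hu := u.2
    have hjr : j < r := by omega
    have e2 : seqOf p κ (j + 1) = κ ⟨j, hjr⟩ := seqOf_succ p κ ⟨j, hjr⟩
    rw [e2] at hi2
    have hpi : p < i := lt_of_le_of_lt (S.inc.le (i := 0) (j := j) (Nat.zero_le _) (by omega)) hi1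
    have hno : ∀ m', i ≠ κ m' := by
      rintro m' rfl
      have h3 : m' < ⟨j, hjr⟩ := hκ.lt_iff_lt.mp hi2
      rw [Fin.lt_def] at h3
      have h4 : seqOf p κ ((m' : ℕ) + 1) = κ m' := seqOf_succ p κ m'
      rw [← h4] at hi1
      have h5 : seqOf p κ ((m' : ℕ) + 1) ≤ seqOf p κ j := S.inc.le (by simpa using h3) (by omega)
      exact absurd (lt_of_lt_of_le hi1 h5) (lt_irrefl _)
    rcases hgap i ⟨j, hjr⟩ hpi (by rw [Fin.lt_def]; exact hj) hi2 hno with h | h | h | h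
    · exact Or.inl h
    · exact Or.inr (Or.inl h)
    · exact Or.inr (Or.inr h)
    · exact absurd h hr

/-- the first spikes instead of the given ones -/
theorem exists_first (p : Fin (n + 1)) (e0 : Fin (n + 1) → ℕ) (q : ℕ)
    (r : ℕ) (κ : Fin r → Fin (n + 1)) (u : Fin r)
    (hκ : StrictMono κ) (hpκ : ∀ m, p < κ m) (hlow : ∀ m : Fin r, m < u → e0 (κ m) = q) :
    ∃ κ' : Fin r → Fin (n + 1), StrictMono κ' ∧ (∀ m, p < κ' m) ∧
      (∀ m, u ≤ m → κ' m = κ m) ∧ (∀ m, m < u → e0 (κ' m) = q ∧ κ' m ≤ κ m) ∧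
      ∀ i m, p < i → m < u → i < κ' m → (∀ m', i ≠ κ' m') → e0 i ≠ q := by
  classical
  set A : Finset (Fin (n + 1)) := Finset.univ.filter (fun i => p < i ∧ i < κ u ∧ e0 i = q) with hA
  have hmem : ∀ m : Fin r, m < u → κ m ∈ A := by
    intro m hm
    rw [hA, Finset.mem_filter]
    exact ⟨Finset.mem_univ _, hpκ m, hκ hm, hlow m hm⟩
  have hcard : (u : ℕ) ≤ A.card := by
    have h1 : (Finset.Iio u).card ≤ A.card := by
      refine Finset.card_le_card_of_injOn κ (fun m hm => ?_) (fun a _ b _ h => hκ.injective h)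
      exact hmem m (by simpa using hm)
    rwa [Fin.card_Iio] at h1
  let f : Fin A.card ↪o Fin (n + 1) := A.orderEmbOfFin rfl
  have hfA : ∀ x, f x ∈ A := fun x => Finset.orderEmbOfFin_mem A rfl x
  have hsurj : ∀ i ∈ A, ∃ x, f x = i := by
    intro i hi
    have : i ∈ Set.range f := by
      show i ∈ Set.range (A.orderEmbOfFin rfl)
      rw [Finset.range_orderEmbOfFin]; exact hi
    exact this
  let κ' : Fin r → Fin (n + 1) := fun m =>
    if h : m < u then f ⟨m, lt_of_lt_of_le (Fin.lt_def.mp h) hcard⟩ else κ m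
  have hk1 : ∀ (m : Fin r) (h : m < u),
      κ' m = f ⟨m, lt_of_lt_of_le (Fin.lt_def.mp h) hcard⟩ := fun m h => dif_pos h
  have hk2 : ∀ m : Fin r, u ≤ m → κ' m = κ m := fun m h => dif_neg (not_lt.mpr h)
  have hkA : ∀ m : Fin r, m < u → κ' m ∈ A := fun m h => by rw [hk1 m h]; exact hfA _
  -- the index of `κ m`
  have hidx : ∀ (k : ℕ) (m : Fin r), (m : ℕ) = k → m < u → ∀ x : Fin A.card, f x = κ m →
      k ≤ (x : ℕ) := by
    intro k
    induction k with
    | zero => intro m _ _ x _; exact Nat.zero_le _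
    | succ k ih =>
      intro m hm hmu x hx
      have hr : k < r := by have := m.2; omega
      have hm' : (⟨k, hr⟩ : Fin r) < m := by rw [Fin.lt_def]; show k < (m : ℕ); omega
      obtain ⟨y, hy⟩ := hsurj _ (hmem ⟨k, hr⟩ (hm'.trans hmu))
      have h1 := ih ⟨k, hr⟩ rfl (hm'.trans hmu) y hy
      have h2 : y < x := by
        rw [← f.lt_iff_lt, hy, hx]; exact hκ hm'
      rw [Fin.lt_def] at h2
      omega
  have hle : ∀ m : Fin r, m < u → κ' m ≤ κ m := by
    intro m hm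
    obtain ⟨x, hx⟩ := hsurj _ (hmem m hm)
    rw [hk1 m hm, ← hx, f.le_iff_le, Fin.le_def]
    exact hidx m m rfl hm x hx
  refine ⟨κ', ?_, ?_, hk2, ?_, ?_⟩
  · intro a b hab
    rcases lt_or_ge b u with hb | hb
    · rw [hk1 a (hab.trans hb), hk1 b hb, f.lt_iff_lt, Fin.lt_def]
      exact Fin.lt_def.mp hab
    · rcases lt_or_ge a u with ha | ha
      · have h1 := hkA a ha
        rw [hA, Finset.mem_filter] at h1
        rw [hk2 b hb]
        exact lt_of_lt_of_le h1.2.2.1 (hκ.monotone hb)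
      · rw [hk2 a ha, hk2 b hb]; exact hκ hab
  · intro m
    rcases lt_or_ge m u with h | h
    · have h1 := hkA m h
      rw [hA, Finset.mem_filter] at h1
      exact h1.2.1
    · rw [hk2 m h]; exact hpκ m
  · intro m hm
    have h1 := hkA m hm
    rw [hA, Finset.mem_filter] at h1
    exact ⟨h1.2.2.2, hle m hm⟩
  · intro i m hpi hm him hno hq
    have hiA : i ∈ A := by
      rw [hA, Finset.mem_filter]
      exact ⟨Finset.mem_univ _, hpi, him.trans (lt_of_le_of_lt (hle m hm) (hκ hm)), hq⟩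
    obtain ⟨x, hx⟩ := hsurj i hiA
    rw [hk1 m hm, ← hx, f.lt_iff_lt, Fin.lt_def] at him
    have hxr : (x : ℕ) < r := by
      have h1 := m.2
      have h2 : (x : ℕ) < (m : ℕ) := him
      omega
    have hxu : (⟨x, hxr⟩ : Fin r) < u := by
      rw [Fin.lt_def] at hm ⊢
      have h2 : (x : ℕ) < (m : ℕ) := him
      show (x : ℕ) < (u : ℕ)
      omega
    refine hno ⟨x, hxr⟩ ?_
    rw [hk1 _ hxu, ← hx]

/-- the gap criterion: every variable strictly between `x_p` and the last of the `κ m`, `m < u`,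
has exponent `2 ^ r - 1`, or is `-1` modulo `2 ^ r` together with all later ones, or dominates all
later ones bit by bit, or has exponent `2 ^ c - 1` (where all exponents are `-1` modulo `2 ^ c`);
no condition if `r ≤ c + 1` -/
theorem gap_main (p : Fin (n + 1)) (e0 : Fin (n + 1) → ℕ) (h0 : e0 p = 0)
    (r : ℕ) (κ : Fin r → Fin (n + 1)) (u : Fin r) (e : Fin (n + 1) → ℕ)
    (hκ : StrictMono κ) (hpκ : ∀ m, p < κ m) {c : ℕ}
    (hc : ∀ i, i ≠ p → e0 i % 2 ^ c = 2 ^ c - 1)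
    (hgap : ∀ i m, p < i → m < u → i < κ m →
      e0 i = 2 ^ r - 1 ∨ (∀ l, i ≤ l → e0 l % 2 ^ r = 2 ^ r - 1) ∨
      (∀ l s, i < l → e0 l / 2 ^ s % 2 = 1 → e0 i / 2 ^ s % 2 = 1) ∨
      e0 i = 2 ^ c - 1 ∨ r ≤ c + 1)
    (hlow : ∀ m : Fin r, m < u → e0 (κ m) = 2 ^ r - 1)
    (hbu : ∀ m : Fin r, m ≤ u → e0 (κ u) / 2 ^ (r - 1 - (m : ℕ)) % 2 = 1)
    (hbm : ∀ m : Fin r, u < m → e0 (κ m) / 2 ^ (r - 1 - (m : ℕ)) % 2 = 1)
    (hep : e p = 2 ^ r - 1)
    (heu : e (κ u) + ∑ m ∈ Finset.range ((u : ℕ) + 1), 2 ^ (r - 1 - m) = e0 (κ u))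
    (hem : ∀ m : Fin r, u < m → e (κ m) + 2 ^ (r - 1 - (m : ℕ)) = e0 (κ m))
    (heq : ∀ i, i ≠ p → (∀ m, u ≤ m → i ≠ κ m) → e i = e0 i) :
    (Adm e0 → Adm e) ∧ wt e = wt e0 ∧ ∑ i, e i = ∑ i, e0 i := by
  obtain ⟨κ', k1, k2, k3, k4, k5⟩ := exists_first p e0 (2 ^ r - 1) r κ u hκ hpκ hlow
  refine gap_main0 p e0 h0 r κ' u e k1 k2 hc ?_ (fun m hm => (k4 m hm).1) ?_ ?_ hep ?_ ?_ ?_
  · intro i m hpi hm him hno
    rcases hgap i m hpi hm (lt_of_lt_of_le him (k4 m hm).2) with h | h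
    · exact absurd h (k5 i m hpi hm him hno)
    · exact h
  · intro m hm
    rw [k3 u le_rfl]; exact hbu m hm
  · intro m hm
    rw [k3 m (le_of_lt hm)]; exact hbm m hm
  · rw [k3 u le_rfl]; exact heu
  · intro m hm
    rw [k3 m (le_of_lt hm)]; exact hem m hm
  · intro i hi h
    refine heq i hi (fun m hm => ?_)
    rw [← k3 m hm]; exact h m hm

end Pool.Agent.HitAB
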