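import Pool.Agent.HitAB.Psi

set_option autoImplicit false

/-!
# The gap criterion with small spikes
-/

namespace Pool.Agent.HitAB

open Pool.Agent.Helper60.Hit MvPolynomial Pool.Agent.CTL45 Pool.Agent.HitD5

variable {n : ℕ}

/-- equal weights: equal digit sums over the places where the vectors differ -/
theorem diff_wt {d : ℕ} {z e0 : Fin d → ℕ} (h : wt z = wt e0) (s : ℕ) :
    ∑ i ∈ Finset.univ.filter (fun i => z i ≠ e0 i), z i / 2 ^ s % 2 =
      ∑ i ∈ Finset.univ.filter (fun i => z i ≠ e0 i), e0 i / 2 ^ s % 2 := by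
  have h1 : ∑ i, z i / 2 ^ s % 2 = ∑ i, e0 i / 2 ^ s % 2 := congrFun h s
  rw [← Finset.sum_filter_add_sum_filter_not Finset.univ (fun i => z i ≠ e0 i)
      (fun i => z i / 2 ^ s % 2),
    ← Finset.sum_filter_add_sum_filter_not Finset.univ (fun i => z i ≠ e0 i)
      (fun i => e0 i / 2 ^ s % 2)] at h1
  have h2 : ∑ i ∈ Finset.univ.filter (fun i => ¬ z i ≠ e0 i), z i / 2 ^ s % 2 =
      ∑ i ∈ Finset.univ.filter (fun i => ¬ z i ≠ e0 i), e0 i / 2 ^ s % 2 := by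
    refine Finset.sum_congr rfl fun i hi => ?_
    rw [Finset.mem_filter, not_not] at hi
    rw [hi.2]
  omega

/-- an entry dominating the other entries that change is not exceeded -/
theorem le_of_dominating' {d : ℕ} {z e0 : Fin d → ℕ} (h : wt z = wt e0) {f : Fin d}
    (hf : z f ≠ e0 f)
    (hdom : ∀ l s, z l ≠ e0 l → e0 l / 2 ^ s % 2 = 1 → e0 f / 2 ^ s % 2 = 1) : z f ≤ e0 f := by
  refine le_of_bits fun s hs => ?_
  have h1 := diff_wt h s
  have hfm : f ∈ Finset.univ.filter (fun i => z i ≠ e0 i) := by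
    rw [Finset.mem_filter]; exact ⟨Finset.mem_univ _, hf⟩
  have h2 : 1 ≤ ∑ i ∈ Finset.univ.filter (fun i => z i ≠ e0 i), z i / 2 ^ s % 2 := by
    rw [← hs]
    exact Finset.single_le_sum (f := fun i => z i / 2 ^ s % 2) (fun i _ => Nat.zero_le _) hfm
  rw [h1] at h2
  obtain ⟨l, hl, hl2⟩ : ∃ l ∈ Finset.univ.filter (fun i => z i ≠ e0 i),
      e0 l / 2 ^ s % 2 ≠ 0 := by
    by_contra hcon
    push Not at hcon
    rw [Finset.sum_eq_zero hcon] at h2
    omega
  rw [Finset.mem_filter] at hl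
  exact hdom l s hl.2 (by omega)

/-- full entries stay full -/
theorem full_of_full' {d r : ℕ} {z e0 : Fin d → ℕ} (h : wt z = wt e0)
    (hfull : ∀ l, z l ≠ e0 l → e0 l % 2 ^ r = 2 ^ r - 1) {l : Fin d} (hl : z l ≠ e0 l) :
    2 ^ r - 1 ≤ z l := by
  refine le_of_low_bits fun s hs => ?_
  by_contra hcon
  have h1 := diff_wt h s
  have h2 : ∑ i ∈ Finset.univ.filter (fun i => z i ≠ e0 i), z i / 2 ^ s % 2 <
      ∑ i ∈ Finset.univ.filter (fun i => z i ≠ e0 i), e0 i / 2 ^ s % 2 := by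
    refine Finset.sum_lt_sum (fun i hi => ?_) ⟨l, ?_, ?_⟩
    · rw [Finset.mem_filter] at hi
      rw [full_of_mod (hfull i hi.2) s hs]
      omega
    · rw [Finset.mem_filter]; exact ⟨Finset.mem_univ _, hl⟩
    · rw [full_of_mod (hfull l hl) s hs]
      omega
  omega

variable {w : ℕ → Fin (n + 1)} {r u : ℕ} {e e0 : Fin (n + 1) → ℕ}

/-- the gap criterion for the operator, with small spikes -/
theorem Wk.gap2 (S : Wk w r u e e0) {c : ℕ}
    (ht : ∀ i, e0 i % 2 ^ c = 2 ^ c - 1 ∨ ∃ a ≤ c, e0 i = 2 ^ a - 1)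
    (hgap : ∀ j < u, ∀ i, w j < i → i < w (j + 1) →
      (∀ l, i ≤ l → e0 l % 2 ^ r = 2 ^ r - 1 ∨ e0 l < 2 ^ c) ∨
      (∀ l s, i < l → e0 l / 2 ^ s % 2 = 1 → e0 i / 2 ^ s % 2 = 1 ∨ e0 l < 2 ^ c) ∨
      e0 i < 2 ^ c ∨ r ≤ c + 1)
    (h : Adm e0) : Adm e := by
  classical
  have hpow := Nat.one_le_two_pow (n := c)
  obtain ⟨Φ, hΦ, hΦm⟩ := exists_sieve c e0 ht
  obtain ⟨K, hK, hKm⟩ := exists_keep (Finset.univ.filter (fun b => e0 b / 2 ^ c ≠ 0))
  have hA : Adm (fun i => e0 i / 2 ^ c) := adm_halfk c h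
  -- the composite operator on monomials
  have hcomp : ∀ z, (K ∘ₗ Φ) (mono z) =
      if (∀ i, z i % 2 ^ c = e0 i % 2 ^ c ∧ (e0 i < 2 ^ c → z i = e0 i)) ∧
        (∀ b, e0 b / 2 ^ c ≠ 0 → z b / 2 ^ c ≠ 0) then mono (fun i => z i / 2 ^ c) else 0 := by
    intro z
    rw [LinearMap.comp_apply, hΦm]
    by_cases h1 : ∀ i, z i % 2 ^ c = e0 i % 2 ^ c ∧ (e0 i < 2 ^ c → z i = e0 i)
    · rw [if_pos h1, hKm]
      by_cases h2 : ∀ b, e0 b / 2 ^ c ≠ 0 → z b / 2 ^ c ≠ 0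
      · have h2' : ∀ b ∈ Finset.univ.filter (fun b => e0 b / 2 ^ c ≠ 0), z b / 2 ^ c ≠ 0 :=
          fun b hb => h2 b (Finset.mem_filter.mp hb).2
        rw [if_pos h2', if_pos ⟨h1, h2⟩]
      · have h2' : ¬ ∀ b ∈ Finset.univ.filter (fun b => e0 b / 2 ^ c ≠ 0), z b / 2 ^ c ≠ 0 :=
          fun h3 => h2 fun b hb => h3 b (Finset.mem_filter.mpr ⟨Finset.mem_univ _, hb⟩)
        rw [if_neg h2', if_neg (fun h3 => h2 h3.2)]
    · rw [if_neg h1, map_zero, if_neg (fun h3 => h1 h3.1)]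
  -- small monomials
  have hsmall : ∀ z : Fin (n + 1) → ℕ, (NLT z e0 ∨ Bad w r u e0 z) →
      (K ∘ₗ Φ) (mono z) ∈ msp (fun y => NLT y (fun i => e0 i / 2 ^ c)) := by
    intro z hz
    rw [hcomp]
    split_ifs with h1
    · refine mono_mem_msp ?_
      have hmod : ∀ i, z i % 2 ^ c = e0 i % 2 ^ c := fun i => (h1.1 i).1
      refine nlt_div c hmod ?_
      rcases hz with hz | ⟨hwt, j, hj, hpre, hlt⟩
      · exact hz
      · have hne : z (w (j + 1)) ≠ e0 (w (j + 1)) := by rw [S.e0_w hj]; exact ne_of_lt hlt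
        -- the first difference
        obtain ⟨f, hf, hfmin⟩ : ∃ f : Fin (n + 1), z f ≠ e0 f ∧ ∀ i < f, z i = e0 i := by
          obtain ⟨f, hf, hmin⟩ := Finset.exists_min_image
            (Finset.univ.filter (fun i => z i ≠ e0 i)) id
            ⟨w (j + 1), by rw [Finset.mem_filter]; exact ⟨Finset.mem_univ _, hne⟩⟩
          rw [Finset.mem_filter] at hf
          refine ⟨f, hf.2, fun i hi => ?_⟩
          by_contra hcon
          have := hmin i (by rw [Finset.mem_filter]; exact ⟨Finset.mem_univ _, hcon⟩)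
          exact absurd (lt_of_lt_of_le hi this) (lt_irrefl _)
        have hge : ∀ l, z l ≠ e0 l → f ≤ l := by
          intro l hl
          by_contra hcon
          exact hl (hfmin l (not_le.mp hcon))
        have hbig : ∀ l, z l ≠ e0 l → ¬ e0 l < 2 ^ c := fun l hl h2 => hl ((h1.1 l).2 h2)
        have hf1 : w j < f := by
          by_contra hcon
          exact hf (hpre f (not_lt.mp hcon))
        have hf2 : f ≤ w (j + 1) := hge _ hne
        have hlow : z f < e0 f → NLT z e0 := fun hlt2 => Or.inr ⟨hwt, f, hfmin, hlt2⟩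
        rcases eq_or_lt_of_le hf2 with h2 | h2
        · refine hlow ?_
          rw [h2, S.e0_w hj]; exact hlt
        · rcases hgap j hj f hf1 h2 with h3 | h3 | h3 | h3
          · exfalso
            have h4 := full_of_full' (r := r) hwt (fun l hl =>
              (h3 l (hge l hl)).resolve_right (hbig l hl)) hne
            omega
          · refine hlow (lt_of_le_of_ne (le_of_dominating' hwt hf fun l s hl hs => ?_) hf)
            rcases eq_or_lt_of_le (hge l hl) with h4 | h4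
            · rw [h4]; exact hs
            · exact (h3 l s h4 hs).resolve_right (hbig l hl)
          · exact absurd h3 (hbig f hf)
          · exfalso
            have h4 : e0 (w (j + 1)) = 2 ^ r - 1 := S.e0_w hj
            have h5 := hbig _ hne
            have h6 := Nat.one_le_two_pow (n := r)
            have h7 : 2 ^ r ≤ 2 ^ (c + 1) := Nat.pow_le_pow_right (by norm_num) h3
            rw [pow_succ] at h7
            have h8 : e0 (w (j + 1)) / 2 ^ c ≠ 0 := by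
              intro h9
              rw [Nat.div_eq_zero_iff] at h9
              omega
            have h9 := h1.2 _ h8
            have h10 : 2 ^ c ≤ z (w (j + 1)) := by
              by_contra hcon
              exact h9 (Nat.div_eq_of_lt (by omega))
            have h11 := hmod (w (j + 1))
            have h12 := Nat.div_add_mod (z (w (j + 1))) (2 ^ c)
            have h13 := Nat.div_add_mod (e0 (w (j + 1))) (2 ^ c)
            have h14 : z (w (j + 1)) / 2 ^ c = 1 := by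
              rw [Nat.div_eq_iff (by omega)]
              omega
            have h15 : e0 (w (j + 1)) / 2 ^ c = 1 := by
              rw [Nat.div_eq_iff (by omega)]
              omega
            rw [h14] at h12
            rw [h15] at h13
            omega
    · exact Submodule.zero_mem _
  refine adm_transport ((K ∘ₗ Φ) ∘ₗ TS w r u) (fun g hg => ?_) ?_ (fun y hy => ?_) hA
  · exact Submodule.mem_sup_left (hK _ (hΦ _ (TS_hits w r u hg)))
  · have h1 := map_msp (K ∘ₗ Φ) _ (fun y hy => hsmall y (Or.inl hy)) S.full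
    rw [map_add] at h1
    have h2 : (K ∘ₗ Φ) (mono e0) = mono (fun i => e0 i / 2 ^ c) := by
      rw [hcomp, if_pos]
      exact ⟨fun i => ⟨rfl, fun _ => rfl⟩, fun b hb => hb⟩
    rw [h2] at h1
    exact Submodule.mem_sup_right h1
  · exact Submodule.mem_sup_right (map_msp (K ∘ₗ Φ) _ (fun z hz => hsmall z hz) (S.TA hy))

/-- the criterion for the positions of the problem, with the gaps of the given `κ` -/
theorem gap2_main0 (p : Fin (n + 1)) (e0 : Fin (n + 1) → ℕ) (h0 : e0 p = 0)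
    (r : ℕ) (κ : Fin r → Fin (n + 1)) (u : Fin r) (e : Fin (n + 1) → ℕ)
    (hκ : StrictMono κ) (hpκ : ∀ m, p < κ m) {c : ℕ}
    (hc : ∀ i, e0 i % 2 ^ c = 2 ^ c - 1 ∨ ∃ a ≤ c, e0 i = 2 ^ a - 1)
    (hgap : ∀ i m, p < i → m < u → i < κ m → (∀ m', i ≠ κ m') →
      (∀ l, i ≤ l → e0 l % 2 ^ r = 2 ^ r - 1 ∨ e0 l < 2 ^ c) ∨
      (∀ l s, i < l → e0 l / 2 ^ s % 2 = 1 → e0 i / 2 ^ s % 2 = 1 ∨ e0 l < 2 ^ c) ∨
      e0 i < 2 ^ c ∨ r ≤ c + 1)
    (hlow : ∀ m : Fin r, m < u → e0 (κ m) = 2 ^ r - 1)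
    (hbu : ∀ m : Fin r, m ≤ u → e0 (κ u) / 2 ^ (r - 1 - (m : ℕ)) % 2 = 1)
    (hbm : ∀ m : Fin r, u < m → e0 (κ m) / 2 ^ (r - 1 - (m : ℕ)) % 2 = 1)
    (hep : e p = 2 ^ r - 1)
    (heu : e (κ u) + ∑ m ∈ Finset.range ((u : ℕ) + 1), 2 ^ (r - 1 - m) = e0 (κ u))
    (hem : ∀ m : Fin r, u < m → e (κ m) + 2 ^ (r - 1 - (m : ℕ)) = e0 (κ m))
    (heq : ∀ i, i ≠ p → (∀ m, u ≤ m → i ≠ κ m) → e i = e0 i) :
    (Adm e0 → Adm e) ∧ wt e = wt e0 ∧ ∑ i, e i = ∑ i, e0 i := by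
  have S : Wk (seqOf p κ) r (u : ℕ) e e0 :=
    wk_main p e0 h0 r κ u e hκ hpκ hlow hbu hbm hep heu hem heq
  refine ⟨Wk.gap2 S hc ?_, S.hwt.symm, S.sum_eq.symm⟩
  intro j hj i hi1 hi2
  have hu := u.2
  have hjr : j < r := by omega
  have e2 : seqOf p κ (j + 1) = κ ⟨j, hjr⟩ := seqOf_succ p κ ⟨j, hjr⟩
  rw [e2] at hi2
  have hpi : p < i := lt_of_le_of_lt (S.inc.le (i := 0) (j := j) (Nat.zero_le _) (by omega)) hi1
  have hno : ∀ m', i ≠ κ m' := by
    rintro m' rfl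
    have h3 : m' < ⟨j, hjr⟩ := hκ.lt_iff_lt.mp hi2
    rw [Fin.lt_def] at h3
    have h4 : seqOf p κ ((m' : ℕ) + 1) = κ m' := seqOf_succ p κ m'
    rw [← h4] at hi1
    have h5 : seqOf p κ ((m' : ℕ) + 1) ≤ seqOf p κ j := S.inc.le (by simpa using h3) (by omega)
    exact absurd (lt_of_lt_of_le hi1 h5) (lt_irrefl _)
  exact hgap i ⟨j, hjr⟩ hpi (by rw [Fin.lt_def]; exact hj) hi2 hno

/-- the gap criterion with small spikes: all exponents are `-1` modulo `2 ^ c` or small, that is,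
of the form `2 ^ a - 1` with `a ≤ c`, and every variable strictly between `x_p` and the last of
the `κ m`, `m < u`, has exponent `2 ^ r - 1`, or is `-1` modulo `2 ^ r` together with all later
ones that are not small, or dominates all later ones that are not small bit by bit, or is small;
no condition if `r ≤ c + 1` -/
theorem gap2_main (p : Fin (n + 1)) (e0 : Fin (n + 1) → ℕ) (h0 : e0 p = 0)
    (r : ℕ) (κ : Fin r → Fin (n + 1)) (u : Fin r) (e : Fin (n + 1) → ℕ)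
    (hκ : StrictMono κ) (hpκ : ∀ m, p < κ m) {c : ℕ}
    (hc : ∀ i, i ≠ p → e0 i % 2 ^ c = 2 ^ c - 1 ∨ ∃ a ≤ c, e0 i = 2 ^ a - 1)
    (hgap : ∀ i m, p < i → m < u → i < κ m →
      e0 i = 2 ^ r - 1 ∨
      (∀ l, i ≤ l → e0 l % 2 ^ r = 2 ^ r - 1 ∨ e0 l < 2 ^ c) ∨
      (∀ l s, i < l → e0 l / 2 ^ s % 2 = 1 → e0 i / 2 ^ s % 2 = 1 ∨ e0 l < 2 ^ c) ∨
      e0 i < 2 ^ c ∨ r ≤ c + 1)
    (hlow : ∀ m : Fin r, m < u → e0 (κ m) = 2 ^ r - 1)
    (hbu : ∀ m : Fin r, m ≤ u → e0 (κ u) / 2 ^ (r - 1 - (m : ℕ)) % 2 = 1)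
    (hbm : ∀ m : Fin r, u < m → e0 (κ m) / 2 ^ (r - 1 - (m : ℕ)) % 2 = 1)
    (hep : e p = 2 ^ r - 1)
    (heu : e (κ u) + ∑ m ∈ Finset.range ((u : ℕ) + 1), 2 ^ (r - 1 - m) = e0 (κ u))
    (hem : ∀ m : Fin r, u < m → e (κ m) + 2 ^ (r - 1 - (m : ℕ)) = e0 (κ m))
    (heq : ∀ i, i ≠ p → (∀ m, u ≤ m → i ≠ κ m) → e i = e0 i) :
    (Adm e0 → Adm e) ∧ wt e = wt e0 ∧ ∑ i, e i = ∑ i, e0 i := by
  obtain ⟨κ', k1, k2, k3, k4, k5⟩ := exists_first p e0 (2 ^ r - 1) r κ u hκ hpκ hlow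
  refine gap2_main0 p e0 h0 r κ' u e k1 k2 (c := c) ?_ ?_ (fun m hm => (k4 m hm).1) ?_ ?_ hep
    ?_ ?_ ?_
  · intro i
    rcases eq_or_ne i p with rfl | hi
    · exact Or.inr ⟨0, Nat.zero_le _, by rw [h0]; simp⟩
    · exact hc i hi
  · intro i m hpi hm him hno
    rcases hgap i m hpi hm (lt_of_lt_of_le him (k4 m hm).2) with h | h
    · exact absurd h (k5 i m hpi hm him hno)
    · exact h
  · intro m hm
    rw [k3 u le_rfl]; exact hbu m hm
  · intro m hm
    rw [k3 m (le_of_lt hm)]; exact hbm m hm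
  · rw [k3 u le_rfl]; exact heu
  · intro m hm
    rw [k3 m (le_of_lt hm)]; exact hem m hm
  · intro i hi h
    refine heq i hi (fun m hm => ?_)
    rw [← k3 m hm]; exact h m hm

end Pool.Agent.HitAB
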