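import Pool.Agent.HitAB.Del
import Pool.Agent.HitD5.Data
import Pool.Agent.HitD5.CaseII

set_option autoImplicit false

/-!
# Weight vectors with the first entries maximal: the positions of the problem
-/

namespace Pool.Agent.HitAB

open Pool.Agent.Helper60.Hit MvPolynomial Pool.Agent.CTL45 Pool.Agent.HitD5

variable {n : ℕ}

theorem mod_of_le {c k x : ℕ} (hk : k ≤ c) (h : x % 2 ^ c = 2 ^ c - 1) :
    x % 2 ^ k = 2 ^ k - 1 := by
  obtain ⟨m, rfl⟩ : ∃ m, c = k + m := ⟨c - k, by omega⟩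
  have h1 : x % 2 ^ (k + m) % 2 ^ k = x % 2 ^ k :=
    Nat.mod_mod_of_dvd _ (pow_dvd_pow 2 (by omega))
  rw [← h1, h]
  have h2 := Nat.one_le_two_pow (n := k)
  have h3 := Nat.one_le_two_pow (n := m)
  have h4 : 2 ^ (k + m) - 1 = (2 ^ k - 1) + 2 ^ k * (2 ^ m - 1) := by
    rw [pow_add, Nat.mul_sub, mul_one]
    have : 2 ^ k * 1 ≤ 2 ^ k * 2 ^ m := Nat.mul_le_mul_left _ h3
    omega
  rw [h4, Nat.add_mul_mod_self_left, Nat.mod_eq_of_lt (by omega)]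

theorem full_of_mod {r x : ℕ} (h : x % 2 ^ r = 2 ^ r - 1) : ∀ s < r, x / 2 ^ s % 2 = 1 := by
  intro s hs
  have h3 : (x % 2 ^ r) / 2 ^ s % 2 = 1 := by rw [h]; exact bits_of_pred r s hs
  have h4 : ((x % 2 ^ r).testBit s) = true := by
    rw [Nat.testBit_eq_decide_div_mod_eq, h3]; simp
  rw [Nat.testBit_mod_two_pow] at h4
  have h5 : x.testBit s = true := by simpa [hs] using h4
  rw [Nat.testBit_eq_decide_div_mod_eq] at h5
  simpa using h5

/-- the condition: all exponents behind `x_p` are `-1` modulo `2 ^ r`, or all exponents (of all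
variables but `x_p`) are `-1` modulo `2 ^ c` where `c + 1` is at least `r` or the variables in the
gaps have exponent exactly `2 ^ c - 1` -/
theorem main_sat (p : Fin (n + 1)) (e0 : Fin (n + 1) → ℕ) (h0 : e0 p = 0)
    (r : ℕ) (κ : Fin r → Fin (n + 1)) (u : Fin r) (e : Fin (n + 1) → ℕ)
    (hκ : StrictMono κ) (hpκ : ∀ m, p < κ m)
    (hor : (∀ i, p < i → e0 i % 2 ^ r = 2 ^ r - 1) ∨
      ∃ c : ℕ, (∀ i, i ≠ p → e0 i % 2 ^ c = 2 ^ c - 1) ∧ (r ≤ c + 1 ∨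
        ∀ i m, p < i → m < u → i < κ m → (∀ m', i ≠ κ m') → e0 i = 2 ^ c - 1))
    (hlow : ∀ m : Fin r, m < u → e0 (κ m) = 2 ^ r - 1)
    (hbu : ∀ m : Fin r, m ≤ u → e0 (κ u) / 2 ^ (r - 1 - (m : ℕ)) % 2 = 1)
    (hbm : ∀ m : Fin r, u < m → e0 (κ m) / 2 ^ (r - 1 - (m : ℕ)) % 2 = 1)
    (hep : e p = 2 ^ r - 1)
    (heu : e (κ u) + ∑ m ∈ Finset.range ((u : ℕ) + 1), 2 ^ (r - 1 - m) = e0 (κ u))
    (hem : ∀ m : Fin r, u < m → e (κ m) + 2 ^ (r - 1 - (m : ℕ)) = e0 (κ m))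
    (heq : ∀ i, i ≠ p → (∀ m, u ≤ m → i ≠ κ m) → e i = e0 i) :
    (Adm e0 → Adm e) ∧ wt e = wt e0 ∧ ∑ i, e i = ∑ i, e0 i := by
  have S : Wk (seqOf p κ) r (u : ℕ) e e0 :=
    wk_main p e0 h0 r κ u e hκ hpκ hlow hbu hbm hep heu hem heq
  refine ⟨fun h => ?_, S.hwt.symm, S.sum_eq.symm⟩
  have hA0 : Adm (fun i : Fin n => e0 ((seqOf p κ 0).succAbove i)) :=
    adm_delete p h0 (fun j => rfl) h
  rcases hor with h1 | ⟨c, hc, h1 | h1⟩
  · exact (sat_main p e0 h0 r κ u e hκ hpκ (fun i hi => full_of_mod (h1 i hi)) hlow hep heu hem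
      heq).1 h
  · refine Wk.AB S (fun i => ?_) hA0
    exact mod_of_le (by omega) (hc _ (Fin.succAbove_ne _ _))
  · by_cases hr : r ≤ c + 1
    · refine Wk.AB S (fun i => ?_) hA0
      exact mod_of_le (by omega) (hc _ (Fin.succAbove_ne _ _))
    · refine Wk.G0 S (k := c) (by omega) (fun i => hc _ (Fin.succAbove_ne _ _)) ?_ hA0
      intro j hj i hi1 hi2
      have hu := u.2
      have hjr : j < r := by omega
      have e2 : seqOf p κ (j + 1) = κ ⟨j, hjr⟩ := seqOf_succ p κ ⟨j, hjr⟩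
      rw [e2] at hi2
      have hpi : p < i := lt_of_le_of_lt (S.inc.le (i := 0) (j := j) (Nat.zero_le _) (by omega)) hi1
      refine h1 i ⟨j, hjr⟩ hpi (by rw [Fin.lt_def]; exact hj) hi2 ?_
      rintro m' rfl
      have h3 : m' < ⟨j, hjr⟩ := hκ.lt_iff_lt.mp hi2
      rw [Fin.lt_def] at h3
      have h4 : seqOf p κ ((m' : ℕ) + 1) = κ m' := seqOf_succ p κ m'
      rw [← h4] at hi1
      have h5 : seqOf p κ ((m' : ℕ) + 1) ≤ seqOf p κ j := S.inc.le (by simpa using h3) (by omega)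
      exact absurd (lt_of_lt_of_le hi1 h5) (lt_irrefl _)

end Pool.Agent.HitAB
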