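import Pool.Agent.HitAB.Gap

set_option autoImplicit false

/-!
# Halving with some variables left out; the sieve of a monomial with small spikes
-/

namespace Pool.Agent.HitAB

open Pool.Agent.Helper60.Hit MvPolynomial Pool.Agent.CTL45 Pool.Agent.HitD5

variable {d : ℕ}

/-- `x_i ↦ 0` for `i` in `D`, halving of the other variables -/
noncomputable def psiD (D : Finset (Fin d)) :
    MvPolynomial (Fin d) (ZMod 2) →ₗ[ZMod 2] MvPolynomial (Fin d) (ZMod 2) :=
  psi ∘ₗ (LinearMap.mulLeft (ZMod 2) (mono (ind D))) ∘ₗ (kill D).toLinearMap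

theorem psiD_apply (D : Finset (Fin d)) (f : MvPolynomial (Fin d) (ZMod 2)) :
    psiD D f = psi (mono (ind D) * kill D f) := rfl

theorem psiD_mono (D : Finset (Fin d)) (z : Fin d → ℕ) :
    psiD D (mono z) = if (∀ i ∈ D, z i = 0) ∧ (∀ i, i ∉ D → z i % 2 = 1) then
      mono (fun i => z i / 2) else 0 := by
  rw [psiD_apply, kill_mono]
  by_cases h : ∀ b ∈ D, z b = 0
  · rw [if_pos h, ← mono_add, psi_mono]
    by_cases h2 : ∀ i, i ∉ D → z i % 2 = 1
    · have hA : ∀ i, (ind D + z) i % 2 = 1 := by
        intro i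
        rw [Pi.add_apply]
        unfold ind
        split_ifs with h3
        · rw [h i h3]
        · rw [zero_add]; exact h2 i h3
      rw [if_pos hA, if_pos ⟨h, h2⟩]
      congr 1
      funext i
      rw [Pi.add_apply]
      unfold ind
      split_ifs with h3
      · rw [h i h3]
      · rw [zero_add]
    · have hB : ¬ ∀ i, (ind D + z) i % 2 = 1 := by
        intro h3
        apply h2
        intro i hi
        have h4 := h3 i
        rw [Pi.add_apply] at h4
        unfold ind at h4
        rw [if_neg hi, zero_add] at h4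
        exact h4
      rw [if_neg hB, if_neg (fun h3 => h2 h3.2)]
  · rw [if_neg h, mul_zero, map_zero, if_neg (fun h3 => h h3.1)]

theorem sum_pattern {D : Finset (Fin d)} {y : Fin d → ℕ}
    (h : (∀ i ∈ D, y i = 0) ∧ (∀ i, i ∉ D → y i % 2 = 1)) :
    ∑ i, y i + D.card = 2 * ∑ i, y i / 2 + d := by
  classical
  have h1 : ∀ i, y i + (if i ∈ D then 1 else 0) = 2 * (y i / 2) + 1 := by
    intro i
    split_ifs with h3
    · rw [h.1 i h3]
    · have := h.2 i h3; omega
  have h2 : ∑ i, (y i + (if i ∈ D then 1 else 0)) = ∑ i, (2 * (y i / 2) + 1) :=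
    Finset.sum_congr rfl fun i _ => h1 i
  rw [Finset.sum_add_distrib, Finset.sum_add_distrib, ← Finset.mul_sum, Finset.sum_boole,
    Finset.filter_mem_eq_inter, Finset.univ_inter] at h2
  simpa using h2

theorem psiD_hc (D : Finset (Fin d)) {N M : ℕ} (hNM : N + D.card = 2 * M + d)
    (f : MvPolynomial (Fin d) (ZMod 2)) :
    psiD D (homogeneousComponent N f) = homogeneousComponent M (psiD D f) := by
  refine mono_ind (P := fun f => psiD D (homogeneousComponent N f) =
    homogeneousComponent M (psiD D f)) ?_ ?_ ?_ f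
  · simp
  · intro y
    rw [hc_mono', psiD_mono]
    by_cases h : (∀ i ∈ D, y i = 0) ∧ (∀ i, i ∉ D → y i % 2 = 1)
    · rw [if_pos h, hc_mono']
      have h1 := sum_pattern h
      by_cases h3 : ∑ i, y i / 2 = M
      · rw [if_pos h3, if_pos (by omega), psiD_mono, if_pos h]
      · rw [if_neg h3, if_neg (by omega), map_zero]
    · rw [if_neg h, map_zero]
      split_ifs
      · rw [psiD_mono, if_neg h]
      · rw [map_zero]
  · intro f g hf hg
    rw [map_add, map_add, map_add, map_add, hf, hg]

theorem psiD_hc_ne (D : Finset (Fin d)) {N : ℕ} (hN : ∀ M, N + D.card ≠ 2 * M + d)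
    (f : MvPolynomial (Fin d) (ZMod 2)) : psiD D (homogeneousComponent N f) = 0 := by
  refine mono_ind (P := fun f => psiD D (homogeneousComponent N f) = 0) ?_ ?_ ?_ f
  · simp
  · intro y
    rw [hc_mono']
    split_ifs with h
    · rw [psiD_mono, if_neg]
      intro h1
      apply hN (∑ i, y i / 2)
      rw [← h]
      exact sum_pattern h1
    · rw [map_zero]
  · intro f g hf hg
    rw [map_add, map_add, hf, hg, add_zero]

theorem psi_mul_even {D T : Finset (Fin d)} (hT : T ⊆ D) (hne : T.Nonempty)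
    {f : MvPolynomial (Fin d) (ZMod 2)} (hf : f ∈ msp (fun y => ∀ i ∈ D, y i = 0)) :
    psi (mono (ind D + ind T) * f) = 0 := by
  have h := map_msp (psi ∘ₗ LinearMap.mulLeft (ZMod 2) (mono (ind D + ind T))) ⊥
    (Q := fun y => ∀ i ∈ D, y i = 0) (fun y hy => by
      rw [Submodule.mem_bot]
      show psi (mono (ind D + ind T) * mono y) = 0
      obtain ⟨t, ht⟩ := hne
      rw [← mono_add]
      refine psi_even (i := t) ?_
      rw [Pi.add_apply, Pi.add_apply, hy t (hT ht)]
      simp [ind, ht, hT ht]) hf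
  rw [Submodule.mem_bot] at h
  exact h

theorem kill_sq (D : Finset (Fin d)) (z : Fin d → ℕ) :
    kill D (Sq d (mono z)) = Sq d (kill D (mono z)) := by
  have h : ∀ f : MvPolynomial (Fin d) (ZMod 2), kill D (Sq d f) = Sq d (kill D f) := by
    intro f
    have h2 : (kill D).comp (Sq d) = (Sq d).comp (kill D) := by
      apply MvPolynomial.algHom_ext
      intro i
      rw [AlgHom.comp_apply, AlgHom.comp_apply, Sq_X]
      unfold kill
      rw [map_add, map_pow, aeval_X]
      split_ifs
      · simp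
      · rw [Sq_X]
    exact DFunLike.congr_fun h2 f
  exact h _

theorem psiD_Sq (D : Finset (Fin d)) (z : Fin d → ℕ) :
    psiD D (Sq d (mono z)) = Sq d (psiD D (mono z)) := by
  classical
  rw [psiD_apply, psiD_apply, kill_sq, kill_mono]
  split_ifs with h
  · rw [← psi_Sq, map_mul (Sq d), Sq_ind, Finset.sum_mul, map_sum,
      ← Finset.add_sum_erase _ _ (Finset.empty_mem_powerset D), Finset.sum_eq_zero, add_zero]
    · have h0 : ind D + ind (∅ : Finset (Fin d)) = ind D := by
        funext i
        simp [ind]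
      rw [h0]
    · intro T hT
      rw [Finset.mem_erase, Finset.mem_powerset] at hT
      refine psi_mul_even hT.2 (Finset.nonempty_iff_ne_empty.mpr hT.1) ?_
      refine msp_mono ?_ (sq_mono_mem z)
      rintro y ⟨c, rfl, hc⟩ i hi
      have h1 := hc i
      rw [h i hi] at h1
      rcases Nat.eq_zero_or_pos (c i) with h2 | h2
      · rw [Pi.add_apply, h i hi, h2]
      · rw [Nat.choose_eq_zero_of_lt h2] at h1
        exact absurd h1 (by norm_num)
  · rw [map_zero, mul_zero, map_zero, map_zero]

theorem psiD_hits (D : Finset (Fin d)) {g : MvPolynomial (Fin d) (ZMod 2)} (hg : g ∈ hits d) :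
    psiD D g ∈ hits d := by
  refine map_hits (psiD D) (hits d) graded_hits (fun m => ?_) (fun z => ?_) hg
  · by_cases h : ∃ M, m + D.card = 2 * M + d
    · obtain ⟨M, hM⟩ := h
      exact Or.inl ⟨M, fun f => psiD_hc D hM f⟩
    · push Not at h
      exact Or.inr fun f => psiD_hc_ne D h f
  · rw [map_add, psiD_Sq, psiD_mono]
    split_ifs
    · exact sq_add_mem' _
    · rw [map_zero, add_zero]; exact Submodule.zero_mem _

/-- the sieve at the level `c` of a monomial all of whose exponents are `-1` modulo `2 ^ c` or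
`2 ^ a - 1` with `a ≤ c` -/
theorem exists_sieve (c : ℕ) (v : Fin d → ℕ)
    (hv : ∀ i, v i % 2 ^ c = 2 ^ c - 1 ∨ ∃ a ≤ c, v i = 2 ^ a - 1) :
    ∃ Φ : MvPolynomial (Fin d) (ZMod 2) →ₗ[ZMod 2] MvPolynomial (Fin d) (ZMod 2),
      (∀ g ∈ hits d, Φ g ∈ hits d) ∧ ∀ z : Fin d → ℕ, Φ (mono z) =
        if ∀ i, z i % 2 ^ c = v i % 2 ^ c ∧ (v i < 2 ^ c → z i = v i) then
          mono (fun i => z i / 2 ^ c) else 0 := by
  classical
  induction c generalizing v with
  | zero =>
    refine ⟨(kill (Finset.univ.filter (fun i => v i = 0))).toLinearMap,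
      fun g hg => kill_hits _ hg, fun z => ?_⟩
    rw [AlgHom.toLinearMap_apply, kill_mono]
    by_cases h : ∀ b ∈ Finset.univ.filter (fun i => v i = 0), z b = 0
    · rw [if_pos h, if_pos]
      · simp
      · intro i
        refine ⟨by simp [Nat.mod_one], fun h1 => ?_⟩
        have h2 : v i = 0 := by simpa using h1
        rw [h2]
        exact h i (Finset.mem_filter.mpr ⟨Finset.mem_univ _, h2⟩)
    · rw [if_neg h, if_neg]
      intro h1
      apply h
      intro b hb
      rw [Finset.mem_filter] at hb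
      rw [(h1 b).2 (by rw [hb.2]; simp), hb.2]
  | succ c ih =>
    have hv' : ∀ i, v i / 2 % 2 ^ c = 2 ^ c - 1 ∨ ∃ a ≤ c, v i / 2 = 2 ^ a - 1 := by
      intro i
      rcases hv i with h | ⟨a, ha, h⟩
      · exact Or.inl ((mod_succ_iff c (v i)).mp h).2
      · rcases Nat.eq_zero_or_pos a with rfl | ha0
        · exact Or.inr ⟨0, Nat.zero_le _, by rw [h]; simp⟩
        · obtain ⟨b, rfl⟩ : ∃ b, a = b + 1 := ⟨a - 1, by omega⟩
          refine Or.inr ⟨b, by omega, ?_⟩
          rw [h, pow_succ]
          have := Nat.one_le_two_pow (n := b)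
          omega
    obtain ⟨Φ, h1, h2⟩ := ih (fun i => v i / 2) hv'
    set D : Finset (Fin d) := Finset.univ.filter (fun i => v i = 0) with hD
    have hodd : ∀ i, i ∉ D → v i % 2 = 1 := by
      intro i hi
      rcases hv i with h | ⟨a, ha, h⟩
      · exact ((mod_succ_iff c (v i)).mp h).1
      · rcases Nat.eq_zero_or_pos a with rfl | ha0
        · exact absurd (Finset.mem_filter.mpr ⟨Finset.mem_univ _, by rw [h]; simp⟩) hi
        · obtain ⟨b, rfl⟩ : ∃ b, a = b + 1 := ⟨a - 1, by omega⟩
          rw [h, pow_succ]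
          have := Nat.one_le_two_pow (n := b)
          omega
    have hD0 : ∀ i ∈ D, v i = 0 := fun i hi => (Finset.mem_filter.mp hi).2
    refine ⟨Φ ∘ₗ psiD D, fun g hg => h1 _ (psiD_hits D hg), fun z => ?_⟩
    rw [LinearMap.comp_apply, psiD_mono]
    have hp := Nat.one_le_two_pow (n := c)
    have hmod : ∀ x : ℕ, x % 2 ^ (c + 1) = x % 2 + 2 * (x / 2 % 2 ^ c) := by
      intro x
      rw [pow_succ', Nat.mod_mul]
    by_cases h : (∀ i ∈ D, z i = 0) ∧ ∀ i, i ∉ D → z i % 2 = 1
    · rw [if_pos h, h2]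
      by_cases h3 : ∀ i, z i / 2 % 2 ^ c = v i / 2 % 2 ^ c ∧ (v i / 2 < 2 ^ c → z i / 2 = v i / 2)
      · rw [if_pos h3, if_pos]
        · congr 1
          funext i
          rw [Nat.div_div_eq_div_mul, pow_succ']
        · intro i
          by_cases hi : i ∈ D
          · rw [h.1 i hi, hD0 i hi]
            exact ⟨rfl, fun _ => rfl⟩
          · have h4 := h.2 i hi
            have h5 := hodd i hi
            refine ⟨by rw [hmod, hmod, (h3 i).1, h4, h5], fun h6 => ?_⟩
            have h7 := (h3 i).2 (by rw [pow_succ] at h6; omega)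
            omega
      · rw [if_neg h3, if_neg]
        intro h4
        apply h3
        intro i
        have h5 := (h4 i).1
        rw [hmod, hmod] at h5
        have h6 : z i % 2 = v i % 2 ∧ z i / 2 % 2 ^ c = v i / 2 % 2 ^ c := by omega
        refine ⟨h6.2, fun h7 => ?_⟩
        have h8 := (h4 i).2 (by rw [pow_succ]; omega)
        rw [h8]
    · rw [if_neg h, map_zero, if_neg]
      intro h4
      apply h
      constructor
      · intro i hi
        have h5 := (h4 i).2 (by rw [hD0 i hi]; positivity)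
        rw [h5, hD0 i hi]
      · intro i hi
        have h5 := (h4 i).1
        rw [hmod, hmod] at h5
        have h6 := hodd i hi
        omega

theorem wt_div (k : ℕ) (z : Fin d → ℕ) (s : ℕ) :
    wt (fun i => z i / 2 ^ k) s = wt z (k + s) := wt_halfk k z s

/-- dividing keeps the order if the low digits agree -/
theorem nlt_div (k : ℕ) {y v : Fin d → ℕ} (hyv : ∀ i, y i % 2 ^ k = v i % 2 ^ k) (h : NLT y v) :
    NLT (fun i => y i / 2 ^ k) (fun i => v i / 2 ^ k) := by
  have hlow : ∀ s < k, wt y s = wt v s := by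
    intro s hs
    unfold wt
    refine Finset.sum_congr rfl fun i _ => ?_
    have h1 : ∀ x : ℕ, x / 2 ^ s % 2 = x % 2 ^ k / 2 ^ s % 2 := by
      intro x
      have h2 : (x % 2 ^ k).testBit s = x.testBit s := by
        rw [Nat.testBit_mod_two_pow]; simp [hs]
      rw [Nat.testBit_eq_decide_div_mod_eq, Nat.testBit_eq_decide_div_mod_eq] at h2
      have h3 := decide_eq_decide.mp h2
      omega
    rw [h1 (y i), h1 (v i), hyv i]
  rcases h with h | ⟨h, h'⟩
  · left
    obtain ⟨s, h1, h2⟩ := h
    have hs : k ≤ s := by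
      by_contra hcon
      rw [hlow s (by omega)] at h2
      exact absurd h2 (lt_irrefl _)
    obtain ⟨s', rfl⟩ : ∃ s', s = k + s' := ⟨s - k, by omega⟩
    refine ⟨s', fun l hl => ?_, ?_⟩
    · rw [wt_div, wt_div]; exact h1 _ (by omega)
    · rw [wt_div, wt_div]; exact h2
  · right
    refine ⟨?_, ?_⟩
    · funext s
      rw [wt_div, wt_div, h]
    · obtain ⟨i, h1, h2⟩ := h'
      refine ⟨i, fun j hj => by show y j / 2 ^ k = v j / 2 ^ k; rw [h1 j hj], ?_⟩
      show y i / 2 ^ k < v i / 2 ^ k
      have h3 := Nat.div_add_mod (y i) (2 ^ k)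
      have h4 := Nat.div_add_mod (v i) (2 ^ k)
      rw [hyv i] at h3
      have h5 : 2 ^ k * (y i / 2 ^ k) < 2 ^ k * (v i / 2 ^ k) := by omega
      exact Nat.lt_of_mul_lt_mul_left h5

end Pool.Agent.HitAB
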