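import Pool.Agent.HitAB.Gap

set_option autoImplicit false

/-!
# The shift of the inserted variable over variables with exponent `2 ^ r - 1`

If the `s` variables directly before `x_p` have exponent `2 ^ r - 1` then the image is also the
image for the place `p - s` (the variables of `κ` being shifted accordingly), so that the gaps
behind the first `u - s` of the `κ m` do not count.
-/

namespace Pool.Agent.HitAB

variable {n : ℕ}

/-- the shifted data -/
theorem shift_data (t : Fin n → ℕ) (p : Fin (n + 1)) (e0 : Fin (n + 1) → ℕ)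
    (h1 : ∀ j, e0 (p.succAbove j) = t j)
    (r : ℕ) (κ : Fin r → Fin (n + 1)) (u : Fin r) (e : Fin (n + 1) → ℕ)
    (hκ : StrictMono κ) (hpκ : ∀ m, p < κ m)
    (hlow : ∀ m : Fin r, m < u → e0 (κ m) = 2 ^ r - 1)
    (hep : e p = 2 ^ r - 1)
    (heq : ∀ i, i ≠ p → (∀ m, u ≤ m → i ≠ κ m) → e i = e0 i)
    (s : ℕ) (hsp : s ≤ (p : ℕ))
    (hs : ∀ i : Fin (n + 1), i < p → (p : ℕ) ≤ (i : ℕ) + s → e0 i = 2 ^ r - 1) :
    ∃ (p' : Fin (n + 1)) (e0' : Fin (n + 1) → ℕ) (κ' : Fin r → Fin (n + 1)),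
      p' ≤ p ∧ e0' p' = 0 ∧ (∀ j, e0' (p'.succAbove j) = t j) ∧
      StrictMono κ' ∧ (∀ m, p' < κ' m) ∧
      (∀ m, m < u → e0' (κ' m) = 2 ^ r - 1) ∧
      (∀ m, u ≤ m → κ' m = κ m) ∧
      (∀ i, p < i → e0' i = e0 i) ∧ (∀ i, i < p' → e0' i = e0 i) ∧
      (∀ i, p' < i → i ≤ p → e0' i = 2 ^ r - 1) ∧
      (∀ i m, p < i → m < u → i < κ' m → ∃ m' : Fin r, (m' : ℕ) + s < u ∧ i < κ m') ∧
      e p' = 2 ^ r - 1 ∧
      (∀ i, i ≠ p' → (∀ m, u ≤ m → i ≠ κ' m) → e i = e0' i) := by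
  classical
  -- the effective shift
  obtain ⟨a, ha1, ha2, ha3⟩ : ∃ a : ℕ, a ≤ s ∧ a ≤ (u : ℕ) ∧ (a = s ∨ a = (u : ℕ)) := by
    rcases le_total s (u : ℕ) with h | h
    · exact ⟨s, le_rfl, h, Or.inl rfl⟩
    · exact ⟨(u : ℕ), h, le_rfl, Or.inr rfl⟩
  have hur := u.2
  have hpn := p.2
  have hap : a ≤ (p : ℕ) := le_trans ha1 hsp
  obtain ⟨p', hp'⟩ : ∃ p' : Fin (n + 1), (p' : ℕ) + a = p :=
    ⟨⟨(p : ℕ) - a, by omega⟩, by simp only []; omega⟩
  have hs' : ∀ i : Fin (n + 1), p' ≤ i → i < p → e0 i = 2 ^ r - 1 := by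
    intro i hi1 hi2
    rw [Fin.le_def] at hi1
    exact hs i hi2 (by omega)
  have hp'p : p' ≤ p := by rw [Fin.le_def]; omega
  -- the shifted vector
  let e0' : Fin (n + 1) → ℕ := fun i => if i = p' then 0 else if p' < i ∧ i ≤ p then 2 ^ r - 1
    else e0 i
  let κ' : Fin r → Fin (n + 1) := fun m =>
    if (m : ℕ) < (u : ℕ) then
      (if (m : ℕ) < a then (if h : (p' : ℕ) + 1 + m < n + 1 then ⟨(p' : ℕ) + 1 + m, h⟩ else p)
        else κ ⟨(m : ℕ) - a, lt_of_le_of_lt (Nat.sub_le _ _) m.2⟩)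
    else κ m
  have k1 : ∀ m : Fin r, (m : ℕ) < a → ((κ' m : Fin (n + 1)) : ℕ) = (p' : ℕ) + 1 + m := by
    intro m hm
    have h2 : (m : ℕ) < (u : ℕ) := lt_of_lt_of_le hm ha2
    have h3 : (p' : ℕ) + 1 + m < n + 1 := by omega
    simp only [κ', if_pos h2, if_pos hm, dif_pos h3]
  have k2 : ∀ m : Fin r, (m : ℕ) < (u : ℕ) → a ≤ (m : ℕ) →
      κ' m = κ ⟨(m : ℕ) - a, lt_of_le_of_lt (Nat.sub_le _ _) m.2⟩ := by
    intro m hm hm2
    simp only [κ', if_pos hm, if_neg (not_lt.mpr hm2)]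
  have k3 : ∀ m : Fin r, (u : ℕ) ≤ (m : ℕ) → κ' m = κ m := by
    intro m hm
    simp only [κ', if_neg (not_lt.mpr hm)]
  have q0 : e0' p' = 0 := by simp only [e0', if_true]
  have q1 : ∀ i, p' < i → i ≤ p → e0' i = 2 ^ r - 1 := by
    intro i h2 h3
    simp only [e0']
    rw [if_neg (ne_of_gt h2), if_pos ⟨h2, h3⟩]
  have q2 : ∀ i, p < i → e0' i = e0 i := by
    intro i h2
    simp only [e0']
    rw [if_neg (ne_of_gt (lt_of_le_of_lt hp'p h2)), if_neg (fun h => absurd h.2 (not_le.mpr h2))]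
  have q3 : ∀ i, i < p' → e0' i = e0 i := by
    intro i h2
    simp only [e0']
    rw [if_neg (ne_of_lt h2), if_neg (fun h => absurd h.1 (not_lt.mpr (le_of_lt h2)))]
  have kp : ∀ m, p' < κ' m := by
    intro m
    rcases lt_or_ge (m : ℕ) a with h | h
    · rw [Fin.lt_def, k1 m h]; omega
    · rcases lt_or_ge (m : ℕ) (u : ℕ) with h2 | h2
      · rw [k2 m h2 h]; exact lt_of_le_of_lt hp'p (hpκ _)
      · rw [k3 m h2]; exact lt_of_le_of_lt hp'p (hpκ _)
  refine ⟨p', e0', κ', hp'p, q0, ?_, ?_, kp, ?_, ?_, q2, q3, q1, ?_, ?_, ?_⟩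
  · intro j
    rw [← h1 j]
    rcases lt_or_ge (j : ℕ) (p' : ℕ) with h | h
    · have h2 : p'.succAbove j = j.castSucc :=
        Fin.succAbove_of_castSucc_lt _ _ (by rw [Fin.lt_def]; exact h)
      have h3 : p.succAbove j = j.castSucc :=
        Fin.succAbove_of_castSucc_lt _ _ (by
          rw [Fin.lt_def]; exact lt_of_lt_of_le h (Fin.le_def.mp hp'p))
      rw [h2, h3]
      exact q3 _ (by rw [Fin.lt_def]; exact h)
    · have h2 : p'.succAbove j = j.succ :=
        Fin.succAbove_of_le_castSucc _ _ (by rw [Fin.le_def]; exact h)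
      rcases lt_or_ge (j : ℕ) (p : ℕ) with h4 | h4
      · have h3 : p.succAbove j = j.castSucc :=
          Fin.succAbove_of_castSucc_lt _ _ (by rw [Fin.lt_def]; exact h4)
        rw [h2, h3, q1 _ (by rw [Fin.lt_def, Fin.val_succ]; omega)
          (by rw [Fin.le_def, Fin.val_succ]; omega)]
        exact (hs' _ (by rw [Fin.le_def]; exact h) (by rw [Fin.lt_def]; exact h4)).symm
      · have h3 : p.succAbove j = j.succ :=
          Fin.succAbove_of_le_castSucc _ _ (by rw [Fin.le_def]; exact h4)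
        rw [h2, h3]
        exact q2 _ (by rw [Fin.lt_def, Fin.val_succ]; omega)
  · intro m m' hm
    rw [Fin.lt_def] at hm
    have hA : ∀ x : Fin r, (p : ℕ) < (κ x : ℕ) := fun x => Fin.lt_def.mp (hpκ x)
    rcases lt_or_ge (m : ℕ) a with h | h
    · rw [Fin.lt_def, k1 m h]
      rcases lt_or_ge (m' : ℕ) a with h2 | h2
      · rw [k1 m' h2]; omega
      · rcases lt_or_ge (m' : ℕ) (u : ℕ) with h3 | h3
        · rw [k2 m' h3 h2]
          have := hA ⟨(m' : ℕ) - a, lt_of_le_of_lt (Nat.sub_le _ _) m'.2⟩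
          omega
        · rw [k3 m' h3]
          have := hA m'
          omega
    · rcases lt_or_ge (m : ℕ) (u : ℕ) with h3 | h3
      · rw [k2 m h3 h]
        rcases lt_or_ge (m' : ℕ) (u : ℕ) with h4 | h4
        · rw [k2 m' h4 (by omega)]
          exact hκ (by rw [Fin.lt_def]; simp only []; omega)
        · rw [k3 m' h4]
          exact hκ (by rw [Fin.lt_def]; simp only []; omega)
      · rw [k3 m h3, k3 m' (by omega)]
        exact hκ (by rw [Fin.lt_def]; exact hm)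
  · intro m hm
    rw [Fin.lt_def] at hm
    rcases lt_or_ge (m : ℕ) a with h | h
    · refine q1 _ (kp m) ?_
      rw [Fin.le_def, k1 m h]; omega
    · rw [k2 m hm h, q2 _ (hpκ _)]
      exact hlow _ (by rw [Fin.lt_def]; simp only []; omega)
  · intro m hm
    exact k3 m (Fin.le_def.mp hm)
  · intro i m hpi hm hi
    rw [Fin.lt_def] at hm
    rcases lt_or_ge (m : ℕ) a with h | h
    · exfalso
      rw [Fin.lt_def, k1 m h] at hi
      rw [Fin.lt_def] at hpi
      omega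
    · rw [k2 m hm h] at hi
      refine ⟨_, ?_, hi⟩
      simp only []
      rcases ha3 with h2 | h2
      · omega
      · omega
  · rcases eq_or_lt_of_le hp'p with h | h
    · rw [h]; exact hep
    · rw [heq p' (ne_of_lt h) (fun m _ => ne_of_lt (lt_trans h (hpκ m)))]
      exact hs' p' le_rfl h
  · intro i hi hm
    have hm' : ∀ m, u ≤ m → i ≠ κ m := by
      intro m hum
      rw [← k3 m (Fin.le_def.mp hum)]
      exact hm m hum
    rcases lt_trichotomy i p' with h | h | h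
    · rw [q3 i h]
      exact heq i (ne_of_lt (lt_of_lt_of_le h hp'p)) hm'
    · exact absurd h hi
    · rcases lt_trichotomy i p with h2 | h2 | h2
      · rw [q1 i h (le_of_lt h2), heq i (ne_of_lt h2) hm']
        exact hs' i (le_of_lt h) h2
      · rw [h2, hep, q1 p (by rw [← h2]; exact h) le_rfl]
      · rw [q2 i h2]
        exact heq i (ne_of_gt h2) hm'

end Pool.Agent.HitAB
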